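import Pool.Agent.Y633.RA.Main

/-!
# Unit tasks with restricted assignment: competitive ratio against number of reassignments

The model (`Event`, `IsSequence`, `OPT`, `Response`, `Legal`, `cost`, `reassignments`,
`OnlineAlgorithm`) is that of the starting file `NoConstantReassign`, repeated in
`Pool/Agent/Y633/RA/Defs.lean`; `tow k x` is the tower of `k` twos with `x` on top
(`Pool/Agent/Y633/RA/Sys.lean`).

1. Trade-off for all numbers: if `tow (2C+1) (8c(2C+1)+2) ≤ n`, there is a sequence `σ` of events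
   on `n` machines with `OPT σ = 1` and two eligible machines for each task on which every schedule
   with loads at most `c` (even one which knows `σ` in advance) makes more than `C` reassignments
   per event.
2. For real `C ≥ 0`: there is `κ > 0` such that for all large `n` this holds for all `c` smaller
   than `κ` times the `(⌊2C⌋+1)`-fold iterated logarithm of `n`.
3. So an online algorithm with at most `C` reassignments per event (amortised) has competitive
   ratio at least `κ log log ... log n` (`⌊2C⌋+1` logarithms) on `n` machines, for all large `n`.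
4. In particular (the question): no constants `c`, `C` are possible.
-/

set_option autoImplicit false

namespace Pool.Agent.Results.MP_4bcfd7_lc.ReassignmentTradeoff

open Pool.Agent.Y633.RA

theorem result :
    (∀ c C n : ℕ, tow (2 * C + 1) (8 * c * (2 * C + 1) + 2) ≤ n →
      ∃ σ : List (Event n), σ ≠ [] ∧ IsSequence σ ∧ OPT σ = 1 ∧
        (∀ j M, Event.arrive j M ∈ σ → M.card = 2) ∧
        ∀ r : ℕ → Response n, Legal σ r → cost σ r ≤ c →
          C * σ.length < reassignments σ r) ∧
    (∀ C : ℝ, 0 ≤ C → ∃ κ : ℝ, 0 < κ ∧ ∃ n₀ : ℕ, ∀ n : ℕ, n₀ ≤ n →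
      ∀ c : ℝ, c < κ * Real.log^[⌊2 * C⌋₊ + 1] n →
        ∃ σ : List (Event n), IsSequence σ ∧ OPT σ = 1 ∧
          (∀ j M, Event.arrive j M ∈ σ → M.card = 2) ∧
          ∀ r : ℕ → Response n, Legal σ r → (cost σ r : ℝ) ≤ c →
            C * (σ.length : ℝ) < (reassignments σ r : ℝ)) ∧
    (∀ C : ℝ, 0 ≤ C → ∃ κ : ℝ, 0 < κ ∧
      ∀ (A : OnlineAlgorithm) (c : ℕ → ℝ), (∀ (n : ℕ) (σ : List (Event n)), IsSequence σ →
        Legal σ (A.run σ) ∧ (cost σ (A.run σ) : ℝ) ≤ c n * (OPT σ : ℝ) ∧
          (reassignments σ (A.run σ) : ℝ) ≤ C * (σ.length : ℝ)) →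
        ∀ᶠ n : ℕ in Filter.atTop, κ * Real.log^[⌊2 * C⌋₊ + 1] n ≤ c n) ∧
    (∀ c C : ℝ, ¬ ∃ A : OnlineAlgorithm, ∀ (n : ℕ) (σ : List (Event n)), IsSequence σ →
      Legal σ (A.run σ) ∧ (cost σ (A.run σ) : ℝ) ≤ c * (OPT σ : ℝ) ∧
        (reassignments σ (A.run σ) : ℝ) ≤ C * (σ.length : ℝ)) :=
  ⟨tradeoff_nat, tradeoff_log, online_log, no_constants⟩

end Pool.Agent.Results.MP_4bcfd7_lc.ReassignmentTradeoff
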